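import Pool.Agent.Helper83.TM.NB.Lf

/-!
# TN-Ch: the chain of finite sets of types (`n` agents)

(The case of three agents with special targets is `Pool/Agent/Helper83/TM/St/Ch.lean`.)

One step: for a finite set `F ⊆ S.Ty` there are `δ > 0` and a finite set `G ⊆ S.Ty`, `F ⊆ G`, such
that for all profiles `x, x'` with entries in `Nr S δ F` and all `l, j`: if there is `τ ∈ S.Ty` with
`m.P x l τ = lam τ` and `m.P x' j τ = lam τ` then there is such a `τ` in `G`.  (By `lf_hullN` there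
are only finitely many quadruples `(m.P x, m.P x', l, j)`; choose one `τ` for each.)  The same then
holds for every smaller `δ` (`Nr S δ' F ⊆ Nr S δ F`, `Metric.thickening_mono`).

Iterate from `F 0 = {S.one}`: this gives `F k` and `δ k` for all `k`.  `δ'` from `lf_hullN` for `F N`,
`D` = the set of all `q i - q' i` for `q, q'` in the finite set of allocations near `F N`.
`δ` = the minimum of `δ'` and of the `δ k`, `k < N`.
-/

set_option autoImplicit false

open Set Filter Topology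

namespace Pool.Agent.Helper83.TM

variable {E : Type*} [NormedAddCommGroup E] [NormedSpace ℝ E] {S : Space E}
  {ι : Type} [Fintype ι] [DecidableEq ι]

private theorem chn_Nr {δ δ' : ℝ} (h : δ ≤ δ') {F : Set E} {x : E} (hx : x ∈ Nr S δ F) :
    x ∈ Nr S δ' F := ⟨hx.1, Metric.thickening_mono h _ hx.2⟩

open Classical in
/-- a type with the property `p`, if there is one -/
private noncomputable def chn_pick (S : Space E) (p : E → Prop) : E :=
  if h : ∃ τ ∈ S.Ty, p τ then h.choose else S.one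

private theorem chn_pick_ty (p : E → Prop) : chn_pick S p ∈ S.Ty := by
  unfold chn_pick
  split_ifs with h
  · exact h.choose_spec.1
  · exact interior_subset S.one_int

private theorem chn_pick_spec {p : E → Prop} (h : ∃ τ ∈ S.Ty, p τ) : p (chn_pick S p) := by
  unfold chn_pick
  rw [dif_pos h]
  exact h.choose_spec.2

/-- one step of the construction -/
private theorem chn_step (m : MechN S ι) (F : {F : Set E // F.Finite ∧ F ⊆ S.Ty}) :
    ∃ (δ : ℝ) (G : {F : Set E // F.Finite ∧ F ⊆ S.Ty}), 0 < δ ∧ F.1 ⊆ G.1 ∧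
      ∀ x x' : ι → E, (∀ i, x i ∈ Nr S δ F.1) → (∀ i, x' i ∈ Nr S δ F.1) →
        ∀ l j, (∃ τ ∈ S.Ty, m.P x l τ = S.lam τ ∧ m.P x' j τ = S.lam τ) →
          ∃ τ ∈ G.1, m.P x l τ = S.lam τ ∧ m.P x' j τ = S.lam τ := by
  obtain ⟨δ, h0, hV⟩ := lf_hullN m F.2.1 F.2.2
  set V := {q : ι → E →L[ℝ] ℝ | ∃ x : ι → E, (∀ i, x i ∈ Nr S δ F.1) ∧ q = m.P x} with hVd
  set W : Set ((ι → E →L[ℝ] ℝ) × (ι → E →L[ℝ] ℝ) × ι × ι) := V ×ˢ V ×ˢ Set.univ ×ˢ Set.univ
    with hW
  have hWf : W.Finite := hV.prod (hV.prod (Set.finite_univ.prod Set.finite_univ))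
  refine ⟨δ, ⟨F.1 ∪ (fun r : (ι → E →L[ℝ] ℝ) × (ι → E →L[ℝ] ℝ) × ι × ι =>
    chn_pick S (fun τ => r.1 r.2.2.1 τ = S.lam τ ∧ r.2.1 r.2.2.2 τ = S.lam τ)) '' W,
    F.2.1.union (hWf.image _), ?_⟩, h0, subset_union_left, ?_⟩
  · rw [union_subset_iff]
    refine ⟨F.2.2, ?_⟩
    rintro _ ⟨r, -, rfl⟩
    exact chn_pick_ty _
  · intro x x' hx hx' l j h
    refine ⟨_, Or.inr ⟨(m.P x, m.P x', l, j), ⟨⟨x, hx, rfl⟩, ⟨x', hx', rfl⟩, trivial, trivial⟩,
      rfl⟩, ?_⟩
    exact chn_pick_spec (S := S)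
      (p := fun τ => m.P x l τ = S.lam τ ∧ m.P x' j τ = S.lam τ) h

private theorem chn_min (f : ℕ → ℝ) (hf : ∀ k, 0 < f k) (a : ℝ) (ha : 0 < a) (N : ℕ) :
    ∃ δ > 0, δ ≤ a ∧ ∀ k < N, δ ≤ f k := by
  induction N with
  | zero => exact ⟨a, ha, le_rfl, fun k hk => absurd hk (Nat.not_lt_zero k)⟩
  | succ N ih =>
    obtain ⟨δ, h1, h2, h3⟩ := ih
    refine ⟨min δ (f N), lt_min h1 (hf N), (min_le_left _ _).trans h2, fun k hk => ?_⟩
    rcases Nat.lt_succ_iff_lt_or_eq.1 hk with h | rfl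
    · exact (min_le_left _ _).trans (h3 k h)
    · exact min_le_right _ _

theorem exists_chainN (m : MechN S ι) (N : ℕ) : Nonempty (ChainN m N) := by
  have hone : S.one ∈ S.Ty := interior_subset S.one_int
  choose dl nx hdl hsub hst using chn_step m
  let sq : ℕ → {F : Set E // F.Finite ∧ F ⊆ S.Ty} := fun k =>
    nx^[k] ⟨{S.one}, finite_singleton _, singleton_subset_iff.2 hone⟩
  have hsq : ∀ k, sq (k + 1) = nx (sq k) := fun k => Function.iterate_succ_apply' _ _ _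
  obtain ⟨δ', h0', hV⟩ := lf_hullN m (sq N).2.1 (sq N).2.2
  set V := {q : ι → E →L[ℝ] ℝ | ∃ x : ι → E, (∀ i, x i ∈ Nr S δ' (sq N).1) ∧ q = m.P x} with hVd
  set D : Set (E →L[ℝ] ℝ) := (fun r : (ι → E →L[ℝ] ℝ) × (ι → E →L[ℝ] ℝ) × ι =>
    r.1 r.2.2 - r.2.1 r.2.2) '' (V ×ˢ V ×ˢ Set.univ) with hD
  obtain ⟨δ, h0, h1, h2⟩ := chn_min (fun k => dl (sq k)) (fun k => hdl (sq k)) δ' h0' N
  exact ⟨{
    δ := δ
    δ_pos := h0
    F := fun k => (sq k).1
    fin := fun k => (sq k).2.1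
    ty := fun k => (sq k).2.2
    one0 := mem_singleton _
    mono := monotone_nat_of_le_succ fun k => by
      rw [hsq k]
      exact hsub (sq k)
    D := D
    D_fin := (hV.prod (hV.prod Set.finite_univ)).image _
    D_tri := by
      rintro _ ⟨⟨_, _, i⟩, ⟨⟨x, -, rfl⟩, ⟨x', -, rfl⟩, -⟩, rfl⟩
      exact m.tri x x' i
    d := fun x x' hx hx' i => ⟨(m.P x, m.P x', i),
      ⟨⟨x, fun i => chn_Nr h1 (hx i), rfl⟩, ⟨x', fun i => chn_Nr h1 (hx' i), rfl⟩, trivial⟩, rfl⟩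
    t := fun k hk x x' hx hx' l j h => by
      obtain ⟨τ, k1, k2⟩ := hst (sq k) x x' (fun i => chn_Nr (h2 k hk) (hx i))
        (fun i => chn_Nr (h2 k hk) (hx' i)) l j h
      exact ⟨τ, by rw [hsq k]; exact k1, k2⟩ }⟩

end Pool.Agent.Helper83.TM
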