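import Pool.Agent.Helper83.TM.Defs

/-!
# Non-bossy locally finite mechanisms for any number of agents: definitions
-/

set_option autoImplicit false

open Set Filter Topology

namespace Pool.Agent.Helper83.TM

/-- Abstract truthful, non-bossy, locally finite whole-cake mechanism with positive values for the
agents `ι`. -/
structure MechN {E : Type*} [NormedAddCommGroup E] [NormedSpace ℝ E] (S : Space E)
    (ι : Type) [Fintype ι] [DecidableEq ι] where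
  P : (ι → E) → ι → E →L[ℝ] ℝ
  sum : ∀ x, ∑ i, P x i = S.lam
  nn : ∀ x i, ∀ t ∈ S.Ty, 0 ≤ P x i t
  tri : ∀ x x' i, P x i - P x' i ∈ S.Tri
  ic : ∀ x i f, x i ∈ S.Ty → P (Function.update x i f) i (x i) ≤ P x i (x i)
  pos : ∀ x i, x i ∈ S.Ty → 0 < P x i (x i)
  bd : ∀ x i t, |P x i t| ≤ ‖t‖
  /-- non-bossiness -/
  nb : ∀ x i f, P (Function.update x i f) i = P x i → P (Function.update x i f) = P x
  full : ∀ x i, x i ∈ S.Ty → ∃ τ ∈ S.Ty, P x i τ = S.lam τ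
  tgt : ∀ (x x' : ι → E) (T : Finset ι), ∀ d ∈ S.Ty, 0 < ∑ j ∈ T, (P x' j d - P x j d) →
    ∃ j ∈ T, ∃ l, l ∉ T ∧ ∃ τ ∈ S.Ty, P x l τ = S.lam τ ∧ P x' j τ = S.lam τ
  lf : ∀ x : ι → E, (∀ i, x i ∈ S.Ty) → ∃ ε > 0,
    {q : ι → E →L[ℝ] ℝ | ∃ x' : ι → E, (∀ i, x' i ∈ S.Ty ∧ dist (x' i) (x i) < ε) ∧
      q = P x'}.Finite

variable {E : Type*} [NormedAddCommGroup E] [NormedSpace ℝ E] {S : Space E}
  {ι : Type} [Fintype ι] [DecidableEq ι]

/-- The chain of finite sets of types. -/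
structure ChainN (m : MechN S ι) (N : ℕ) where
  δ : ℝ
  δ_pos : 0 < δ
  F : ℕ → Set E
  fin : ∀ k, (F k).Finite
  ty : ∀ k, F k ⊆ S.Ty
  one0 : S.one ∈ F 0
  mono : Monotone F
  /-- all differences of pieces near `F N` -/
  D : Set (E →L[ℝ] ℝ)
  D_fin : D.Finite
  D_tri : D ⊆ S.Tri
  d : ∀ x x' : ι → E, (∀ i, x i ∈ Nr S δ (F N)) → (∀ i, x' i ∈ Nr S δ (F N)) →
    ∀ i, m.P x i - m.P x' i ∈ D
  t : ∀ k < N, ∀ x x' : ι → E, (∀ i, x i ∈ Nr S δ (F k)) → (∀ i, x' i ∈ Nr S δ (F k)) →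
    ∀ l j, (∃ τ ∈ S.Ty, m.P x l τ = S.lam τ ∧ m.P x' j τ = S.lam τ) →
      ∃ τ ∈ F (k + 1), m.P x l τ = S.lam τ ∧ m.P x' j τ = S.lam τ

/-- The invariant of the induction: the agents of `T` are at the walls `w i`, the others have the
type `d`.  If all agents of `T` accept (reports `acc`) the allocation is `m.P acc`, with
`m.P acc i - a i = w i` for the agents of `T`, and if at least one of them refuses (report
`ref i`) it is `a`. -/
structure Inv {m : MechN S ι} {N : ℕ} (c : ChainN m N) (d : E) (T : Finset ι)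
    (acc ref : ι → E) (w a : ι → E →L[ℝ] ℝ) : Prop where
  ne : T.Nonempty
  off : ∀ i, i ∉ T → acc i = d ∧ ref i = d
  accN : ∀ i, acc i ∈ Nr S c.δ (c.F T.card)
  refN : ∀ i, ref i ∈ Nr S c.δ (c.F T.card)
  acc_ne : ∀ i ∈ T, acc i ≠ ref i
  wd : ∀ i ∈ T, 0 < w i d
  adj : ∀ i ∈ T, Adj c.D (w i) (acc i) (ref i)
  low : ∀ X : ι → E, (∀ i, X i = acc i ∨ X i = ref i) → X ≠ acc → m.P X = a
  high : ∀ i ∈ T, m.P acc i - a i = w i

end Pool.Agent.Helper83.TM
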