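import Pool.Agent.Helper83.TM.NB.Near
import Pool.Agent.Helper83.TM.St.Gen

/-!
# TN-First: the start of the induction

The same proof as `exists_wall` in `Pool/Agent/Helper83/TM/St/Wall.lean` (proved there).

`d`: generic (`exists_generic c.D_fin`) in `interior S.Ty ∩ ball S.one c.δ`; `d ∈ Nr S c.δ (c.F 0)`.
`X0 = fun _ => d`.  Two different agents `i ≠ j` (`Fintype.one_lt_card_iff` or similar).  `m.full` gives
`τ ∈ S.Ty` with `m.P X0 j τ = lam τ`, and `c.t 0` (with `l = j`, `x = x' = X0`) gives such a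
`τ ∈ c.F 1`.  Then `m.P X0 i τ = 0` by `m.sum`, `m.nn`.  `pos_nearN` for `i`, `τ` gives `ρ`.  `z` in
`interior S.Ty`, within `ρ` and `c.δ` of `τ`, `u z < 0` for all `u ∈ c.D` with `u τ < 0`, and all
points of the line through `d`, `z` simple (`exists_seg`).  `y t = seg d z t`,
`f t = m.P (update X0 i (y t)) i τ`, `f 0 = 0 < f 1`.  As in `exists_wall` one finds `s', s''` in
`Icc 0 1` with `w0 = m.P (update X0 i (y s')) i - m.P (update X0 i (y s'')) i` in `c.D`, `0 < w0 d`,
`Adj c.D w0 (y s') (y s'')`, `y s' ≠ y s''` (as `w0 ≠ 0`).  Put `acc = update X0 i (y s')`,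
`ref = update X0 i (y s'')`, `w = fun _ => w0`, `a = m.P ref`.  If `X k = acc k ∨ X k = ref k` for all
`k` and `X ≠ acc` then `X = ref`.
-/

set_option autoImplicit false

open Set Filter Topology

namespace Pool.Agent.Helper83.TM

variable {E : Type*} [NormedAddCommGroup E] [NormedSpace ℝ E] {S : Space E}
  {ι : Type} [Fintype ι] [DecidableEq ι]

theorem inv_first {m : MechN S ι} {N : ℕ} (c : ChainN m N) (hN : 1 ≤ N)
    (hc : 2 ≤ Fintype.card ι) : ∃ d ∈ interior S.Ty, d ∈ Nr S c.δ (c.F 0) ∧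
    (∀ φ ∈ c.D, φ ≠ 0 → φ d ≠ 0) ∧ ∃ (i : ι) (acc ref : ι → E) (w a : ι → E →L[ℝ] ℝ),
      Inv c d {i} acc ref w a := by
  have hδ := c.δ_pos
  obtain ⟨d, hdO, hgen⟩ := exists_generic c.D_fin (O := interior S.Ty ∩ Metric.ball S.one c.δ)
    (isOpen_interior.inter Metric.isOpen_ball) ⟨S.one, S.one_int, Metric.mem_ball_self hδ⟩
  obtain ⟨hd, hdb⟩ := hdO
  have hd0 : d ∈ Nr S c.δ (c.F 0) := mem_Nr_of_dist c.one0 (interior_subset hd) hdb
  have hd1 : d ∈ Nr S c.δ (c.F 1) := Nr_mono (c.mono (Nat.zero_le 1)) hd0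
  have h1N : Nr S c.δ (c.F 1) ⊆ Nr S c.δ (c.F N) := Nr_mono (c.mono hN)
  have hdN : d ∈ Nr S c.δ (c.F N) := h1N hd1
  have hSd : Simple c.D d := fun u hu _ _ h0 _ h1 _ => absurd h1 (hgen u hu h0)
  obtain ⟨i, j, hij⟩ := Fintype.exists_pair_of_one_lt_card (α := ι) (by omega)
  set X0 : ι → E := fun _ => d with hX0
  obtain ⟨τ, hτ1, hPj⟩ : ∃ τ ∈ c.F 1, m.P X0 j τ = S.lam τ := by
    obtain ⟨τ0, h1, h2⟩ := m.full X0 j (interior_subset hd)
    obtain ⟨τ, h3, h4, -⟩ := c.t 0 (by omega) X0 X0 (fun _ => hd0) (fun _ => hd0) j j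
      ⟨τ0, h1, h2, h2⟩
    exact ⟨τ, h3, h4⟩
  have hτN : τ ∈ c.F N := c.mono hN hτ1
  have hτty : τ ∈ S.Ty := c.ty 1 hτ1
  have hPi : m.P X0 i τ = 0 := by
    have h1 : ∑ k, m.P X0 k τ = S.lam τ := by
      rw [← m.sum X0, ContinuousLinearMap.sum_apply]
    have h2 : m.P X0 i τ + m.P X0 j τ ≤ ∑ k, m.P X0 k τ := by
      have h3 : ∑ k ∈ ({i, j} : Finset ι), m.P X0 k τ ≤ ∑ k, m.P X0 k τ :=
        Finset.sum_le_sum_of_subset_of_nonneg (Finset.subset_univ _)
          (fun k _ _ => m.nn X0 k τ hτty)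
      rwa [Finset.sum_pair hij] at h3
    have h4 := m.nn X0 i τ hτty
    linarith
  obtain ⟨ρ, hρ, hpos⟩ := pos_nearN c hτN i
  -- the end point of the path
  set P : Set E := Metric.ball τ ρ ∩ (Metric.ball τ c.δ ∩ ⋂ w ∈ c.D, {x | w τ < 0 → w x < 0})
    with hP
  have hPo : IsOpen P := by
    refine Metric.isOpen_ball.inter (Metric.isOpen_ball.inter ?_)
    refine c.D_fin.isOpen_biInter fun w _ => ?_
    by_cases hw : w τ < 0
    · simp only [hw, true_imp_iff]
      exact isOpen_lt w.continuous continuous_const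
    · simp [hw]
  have hτP : τ ∈ P := by
    refine ⟨Metric.mem_ball_self hρ, Metric.mem_ball_self hδ, ?_⟩
    simp
  have hOne : (interior S.Ty ∩ P).Nonempty := by
    have hc := continuous_seg τ d
    have h1 : ∀ᶠ θ in 𝓝[>] (0 : ℝ), seg τ d θ ∈ P := by
      refine nhdsWithin_le_nhds (hc.continuousAt.eventually (hPo.mem_nhds ?_))
      rw [seg_zero]
      exact hτP
    have h2 : ∀ᶠ θ in 𝓝[>] (0 : ℝ), θ ∈ Ioc (0 : ℝ) 1 := Ioc_mem_nhdsGT (by norm_num)
    obtain ⟨θ, h3, h4⟩ := (h1.and h2).exists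
    refine ⟨seg τ d θ, ?_, h3⟩
    exact S.conv.combo_self_interior_mem_interior hτty hd (by linarith [h4.2]) h4.1 (by ring)
  obtain ⟨z, hzO, hs⟩ := exists_seg (S := S) c.D_fin c.D_tri hSd (isOpen_interior.inter hPo) hOne
  obtain ⟨hzi, hzρ, hzδ, hzw⟩ := hzO
  have hzty : z ∈ S.Ty := interior_subset hzi
  have hz1 : z ∈ Nr S c.δ (c.F 1) := mem_Nr_of_dist hτ1 hzty hzδ
  have hzw' : ∀ w ∈ c.D, w τ < 0 → w z < 0 := fun w hw => (mem_iInter₂.1 hzw) w hw
  have hy1 : ∀ t ∈ Icc (0 : ℝ) 1, seg d z t ∈ Nr S c.δ (c.F 1) :=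
    fun t ht => seg_mem (convex_Nr _ _) hd1 hz1 ht
  have hup1 : ∀ t ∈ Icc (0 : ℝ) 1, ∀ k,
      Function.update X0 i (seg d z t) k ∈ Nr S c.δ (c.F 1) := by
    intro t ht k
    by_cases hk : k = i
    · subst hk
      rw [Function.update_self]
      exact hy1 t ht
    · rw [Function.update_of_ne hk]
      exact hd1
  let f : ℝ → ℝ := fun t => m.P (Function.update X0 i (seg d z t)) i τ
  have f0 : f 0 = 0 := by
    show m.P (Function.update X0 i (seg d z 0)) i τ = 0
    have h : Function.update X0 i d = X0 := Function.update_eq_self i X0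
    rw [seg_zero, h]
    exact hPi
  have f1 : 0 < f 1 := by
    refine hpos _ (fun k => h1N (hup1 1 (by simp) k)) ?_
    rw [Function.update_self, seg_one]
    exact hzρ
  obtain ⟨s, hs01, hsN⟩ : ∃ s ∈ Icc (0 : ℝ) 1, ∀ N ∈ 𝓝 s, ∃ s' ∈ N, ∃ s'' ∈ N,
      s' ∈ Icc (0 : ℝ) 1 ∧ s'' ∈ Icc (0 : ℝ) 1 ∧ f s' < f s'' := by
    by_contra hcon
    push Not at hcon
    have h1 : f 0 = f 1 := by
      apply const_of_local
      intro s hs
      obtain ⟨N, hN, h⟩ := hcon s hs
      refine ⟨N, hN, fun s' h1 s'' h2 h3 h4 => le_antisymm ?_ ?_⟩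
      · exact h s'' h2 s' h1 h4 h3
      · exact h s' h1 s'' h2 h3 h4
    linarith
  obtain ⟨N1, hN1, hz0⟩ := zero_seg c.D_fin d z s
  obtain ⟨N2, hN2, hadj⟩ := adj_seg c.D_fin hgen hs s
  obtain ⟨s', h1, s'', h2, h3, h4, h5⟩ := hsN (N1 ∩ N2) (inter_mem hN1 hN2)
  set acc : ι → E := Function.update X0 i (seg d z s') with hacc
  set ref : ι → E := Function.update X0 i (seg d z s'') with href
  have hacci : acc i = seg d z s' := Function.update_self _ _ _
  have hrefi : ref i = seg d z s'' := Function.update_self _ _ _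
  have hacc1 : ∀ k, acc k ∈ Nr S c.δ (c.F 1) := hup1 s' h3
  have href1 : ∀ k, ref k ∈ Nr S c.δ (c.F 1) := hup1 s'' h4
  have hra : Function.update acc i (seg d z s'') = ref := Function.update_idem _ _ _
  have har : Function.update ref i (seg d z s') = acc := Function.update_idem _ _ _
  set w : E →L[ℝ] ℝ := m.P acc i - m.P ref i with hw
  have hwD : w ∈ c.D := c.d acc ref (fun k => h1N (hacc1 k)) (fun k => h1N (href1 k)) i
  have hwτ : w τ < 0 := by
    have h6 : w τ = f s' - f s'' := rfl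
    rw [h6]
    linarith
  have hw0 : w ≠ 0 := by
    intro h
    rw [h] at hwτ
    simp at hwτ
  have hwz : w z < 0 := hzw' w hwD hwτ
  have hw' : 0 ≤ w (seg d z s') := by
    have := m.ic acc i (seg d z s'') (by rw [hacci]; exact Nr_ty (hy1 s' h3))
    rw [hra, hacci] at this
    simp only [hw, ContinuousLinearMap.sub_apply]
    linarith
  have hw'' : w (seg d z s'') ≤ 0 := by
    have := m.ic ref i (seg d z s') (by rw [hrefi]; exact Nr_ty (hy1 s'' h4))
    rw [har, hrefi] at this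
    simp only [hw, ContinuousLinearMap.sub_apply]
    linarith
  have hws : w (seg d z s) = 0 := hz0 s' h1.1 s'' h2.1 w hwD hw' hw''
  have hwd0 : w d ≠ 0 := hgen w hwD hw0
  have hwd : 0 < w d := by
    rw [seg_apply] at hws
    by_contra h6
    have h7 : w d < 0 := lt_of_le_of_ne (not_lt.1 h6) hwd0
    have h8 : (1 - s) * w d ≤ 0 := mul_nonpos_of_nonneg_of_nonpos (by linarith [hs01.2]) h7.le
    have h9 : s * w z ≤ 0 := mul_nonpos_of_nonneg_of_nonpos hs01.1 hwz.le
    have h10 : (1 - s) * w d = 0 := by linarith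
    have h11 : s * w z = 0 := by linarith
    have h12 : 1 - s = 0 := (mul_eq_zero.1 h10).resolve_right h7.ne
    have h13 : s = 0 := (mul_eq_zero.1 h11).resolve_right hwz.ne
    linarith
  have hne : s' ≠ s'' := by
    rintro rfl
    exact lt_irrefl _ h5
  obtain ⟨v, -, -, hv⟩ := hadj s' h1.2 s'' h2.2 hne
  have hvw : w = v := (hv w hwD hw' hw'').resolve_left hw0
  have hsne : seg d z s' ≠ seg d z s'' := by
    intro h
    apply hw0
    rw [hw, hacc, href, h, sub_self]
  have hoff : ∀ k, k ≠ i → acc k = d ∧ ref k = d := fun k hk =>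
    ⟨Function.update_of_ne hk _ _, Function.update_of_ne hk _ _⟩
  refine ⟨d, hd, hd0, hgen, i, acc, ref, fun _ => w, m.P ref, ?_⟩
  refine ⟨Finset.singleton_nonempty i, ?_, ?_, ?_, ?_, ?_, ?_, ?_, ?_⟩
  · intro k hk
    exact hoff k (fun h => hk (Finset.mem_singleton.2 h))
  · intro k
    rw [Finset.card_singleton]
    exact hacc1 k
  · intro k
    rw [Finset.card_singleton]
    exact href1 k
  · intro k hk
    rw [Finset.mem_singleton.1 hk, hacci, hrefi]
    exact hsne
  · intro k _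
    exact hwd
  · intro k hk
    rw [Finset.mem_singleton.1 hk, hacci, hrefi, hvw]
    exact hv
  · intro X hX hXne
    have hXref : X = ref := by
      have hXi : X i = ref i := by
        rcases hX i with h | h
        · exfalso
          apply hXne
          funext k
          by_cases hk : k = i
          · subst hk
            exact h
          · rcases hX k with h' | h'
            · exact h'
            · rw [h', (hoff k hk).1, (hoff k hk).2]
        · exact h
      funext k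
      by_cases hk : k = i
      · subst hk
        exact hXi
      · rcases hX k with h' | h'
        · rw [h', (hoff k hk).1, (hoff k hk).2]
        · exact h'
    rw [hXref]
  · intro k hk
    rw [Finset.mem_singleton.1 hk]

end Pool.Agent.Helper83.TM
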