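import Pool.Agent.Helper83.TM.NB.Defs

/-!
# TN-Lf: finitely many allocations near the convex hull of a finite set of types (`n` agents)

The same proof as `Pool/Agent/Helper83/TM/St/Lf.lean` (proved there for three agents) with the
compact set `Set.univ.pi (fun _ => convexHull ℝ F)` of `ι → E` (`isCompact_univ_pi`, distance of
the finite product: `dist_pi_lt_iff`).
-/

set_option autoImplicit false

open Set Filter Topology

namespace Pool.Agent.Helper83.TM

variable {E : Type*} [NormedAddCommGroup E] [NormedSpace ℝ E] {S : Space E}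
  {ι : Type} [Fintype ι] [DecidableEq ι]

/-- the allocations at types close to a set of profiles -/
def lfN_V (m : MechN S ι) (δ : ℝ) (P : Set (ι → E)) : Set (ι → E →L[ℝ] ℝ) :=
  {q | ∃ x : ι → E, (∀ i, x i ∈ S.Ty) ∧ (∃ p ∈ P, dist x p < δ) ∧ q = m.P x}

theorem lfN_V_mono (m : MechN S ι) {δ δ' : ℝ} {P P' : Set (ι → E)} (h : δ ≤ δ') (hP : P ⊆ P') :
    lfN_V m δ P ⊆ lfN_V m δ' P' := by
  rintro q ⟨x, hx, ⟨p, hp, hd⟩, rfl⟩
  exact ⟨x, hx, ⟨p, hP hp, hd.trans_le h⟩, rfl⟩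

theorem lf_hullN (m : MechN S ι) {F : Set E} (hF : F.Finite) (hT : F ⊆ S.Ty) :
    ∃ δ > 0, {q : ι → E →L[ℝ] ℝ | ∃ x : ι → E, (∀ i, x i ∈ Nr S δ F) ∧ q = m.P x}.Finite := by
  have hK : IsCompact (convexHull ℝ F) := hF.isCompact_convexHull ℝ
  have hKT : convexHull ℝ F ⊆ S.Ty := convexHull_min hT S.conv
  have hKK : IsCompact (Set.univ.pi fun _ : ι => convexHull ℝ F) :=
    isCompact_univ_pi fun _ => hK
  have key : ∃ δ > 0, (lfN_V m δ (Set.univ.pi fun _ : ι => convexHull ℝ F)).Finite := by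
    refine hKK.induction_on (p := fun P => ∃ δ > 0, (lfN_V m δ P).Finite) ?_ ?_ ?_ ?_
    · refine ⟨1, one_pos, ?_⟩
      have h0 : lfN_V m 1 (∅ : Set (ι → E)) = ∅ := by
        ext q
        constructor
        · rintro ⟨x, hx, ⟨p, hp, hd⟩, rfl⟩
          exact hp.elim
        · intro h
          exact h.elim
      rw [h0]
      exact Set.finite_empty
    · rintro s t hst ⟨δ, hδ, h⟩
      exact ⟨δ, hδ, h.subset (lfN_V_mono m le_rfl hst)⟩
    · rintro s t ⟨δ, hδ, h⟩ ⟨δ', hδ', h'⟩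
      refine ⟨min δ δ', lt_min hδ hδ', (h.union h').subset ?_⟩
      rintro q ⟨x, hx, ⟨p, hp | hp, hd⟩, rfl⟩
      · exact Or.inl ⟨x, hx, ⟨p, hp, hd.trans_le (min_le_left _ _)⟩, rfl⟩
      · exact Or.inr ⟨x, hx, ⟨p, hp, hd.trans_le (min_le_right _ _)⟩, rfl⟩
    · intro a ha
      obtain ⟨ε, hε, h⟩ := m.lf a fun i => hKT (ha i (Set.mem_univ i))
      refine ⟨Metric.ball a (ε / 2),
        mem_nhdsWithin_of_mem_nhds (Metric.ball_mem_nhds _ (half_pos hε)), ε / 2, half_pos hε,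
        h.subset ?_⟩
      rintro q ⟨x, hx, ⟨p, hp, hd⟩, rfl⟩
      have h1 : dist x a < ε := by
        have h2 := dist_triangle x p a
        have h3 : dist p a < ε / 2 := hp
        linarith
      exact ⟨x, fun i => ⟨hx i, (dist_le_pi_dist x a i).trans_lt h1⟩, rfl⟩
  obtain ⟨δ, hδ, h⟩ := key
  refine ⟨δ, hδ, h.subset ?_⟩
  rintro q ⟨x, hx, rfl⟩
  have h1 : ∀ i, ∃ p ∈ convexHull ℝ F, dist (x i) p < δ := fun i =>
    Metric.mem_thickening_iff.1 (hx i).2
  choose a ha hd using h1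
  exact ⟨x, fun i => (hx i).1, ⟨a, fun i _ => ha i, (dist_pi_lt_iff hδ).2 hd⟩, rfl⟩

end Pool.Agent.Helper83.TM
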