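import Pool.Agent.Helper83.TM.NB.Near
import Pool.Agent.Helper83.TM.St.Gen

/-!
# TN-Step: the induction step

Let `k = T.card < N`.

1. `a = m.P X` for some profile `X` with entries in `Nr S c.δ (c.F k)`: `T` is not empty, replace
   `acc i` by `ref i` for one `i ∈ T` (`h.acc_ne`, `h.low`).  By `h.high`,
   `∑ i ∈ T, (m.P acc i d - m.P X i d) = ∑ i ∈ T, w i d > 0`; `m.tgt` gives `j ∈ T`, `l ∉ T` and
   `τ ∈ S.Ty` with `a l τ = lam τ`, `m.P acc j τ = lam τ`, and by `c.t k` we may take
   `τ ∈ c.F (k + 1) ⊆ c.F N`.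
2. `pos_nearN` for `l`, `τ` gives `ρ`.  Let `O` be the set of the `z ∈ interior S.Ty` with
   `dist z τ < ρ`, `dist z τ < c.δ`, `u z < 0` for all `u ∈ c.D` with `u τ < 0`, and `0 < u z` for all
   `u ∈ c.D` with `0 ≤ u τ`, `0 < u d`.  `O` is open, and `seg τ d θ` is in it for small `θ > 0`
   (`u (seg τ d θ) = (1 - θ) * u τ + θ * u d`).  `exists_seg` gives `z ∈ O` such that all points
   `x t = seg d z t` are simple.  `x t ∈ Nr S c.δ (c.F (k + 1))` for `t ∈ Icc 0 1`.
3. Refusing states: let `X` satisfy `X i = acc i ∨ X i = ref i` for all `i` and `X ≠ acc`, so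
   `m.P X = a` and `X l = d`.  Then `m.P (update X l (x t)) = a` for `t ∈ Icc 0 1`.  Proof: let
   `u = a l - m.P (update X l (x t)) l`, in `c.D`.  `0 ≤ u d` (`m.ic` for `X`), `u (x t) ≤ 0` (`m.ic`
   for `update X l (x t)`), `0 ≤ u τ` (`a l τ = lam τ`, and `m.P .. l τ ≤ lam τ` by `m.sum`, `m.nn`).
   If `u ≠ 0` then `u d ≠ 0` by `hgen`, so `0 < u d`, `0 < u z`, hence `0 < u (x t)`, contradiction.
   So `u = 0` and `m.nb` gives the claim.
4. `f t = m.P (update acc l (x t))`.  For `t ∈ Icc 0 1` either `f t = a` or `f t i - a i = w i` for all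
   `i ∈ T`: `u = f t i - a i` is in `c.D`, and `a = m.P (update (update acc i (ref i)) l (x t))` by 3,
   which is `update (update acc l (x t)) i (ref i)`; `m.ic` for the agent `i` gives `0 ≤ u (acc i)`,
   `u (ref i) ≤ 0`, so `u = 0` or `u = w i` by `h.adj`; if `u = 0` for some `i` then `m.nb` gives
   `f t = a`.
5. `f 0 = m.P acc ≠ a` (as `w i ≠ 0`, `i ∈ T`).  `f 1 = a`: otherwise `f 1 j = a j + w j = m.P acc j`,
   so `f 1 j τ = lam τ` and `f 1 l τ = 0`, contradiction with `pos_nearN` (`x 1 = z`).  By
   `const_of_local` for the function `t ↦ (f t = a)` there is `s ∈ Icc 0 1` such that every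
   neighbourhood `N` of `s` contains `s', s'' ∈ Icc 0 1` with `f s' ≠ a`, `f s'' = a`.  Take `N` = the
   intersection of those of `zero_seg` and `adj_seg` (at `p = d`, `q = z`).
6. `w' = f s' l - a l` (`a l = f s'' l`).  It is in `c.D`, `≥ 0` at `x s'` and `≤ 0` at `x s''`
   (`m.ic`), so `w' (x s) = 0` by `zero_seg`.  `w' ≠ 0`: otherwise `m.nb` gives `f s' = f s'' = a`.
   `f s' j = m.P acc j`, so `f s' j τ = lam τ`, `f s' l τ = 0` and `w' τ = - lam τ < 0`; so `w' z < 0`.
   As in `exists_wall` (`St/Wall.lean`): `w' (x s) = (1 - s) * w' d + s * w' z = 0`, `w' d ≠ 0` by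
   `hgen`, hence `0 < w' d`.  `adj_seg` gives `v` with `Adj c.D v (x s') (x s'')`; for `u = w'`: `w' = v`.
7. New data for `insert l T`: `acc' = update acc l (x s')`, `ref' = update ref l (x s'')`,
   `w' = update w l w'`, the same `a`.  `low`: let `X` with `X i = acc' i ∨ X i = ref' i`, `X ≠ acc'`.
   Let `Y = update X l d`; it satisfies `Y i = acc i ∨ Y i = ref i`.  If `Y ≠ acc` use 3 (for
   `X l = x s'` as well as for `X l = x s''`; `X = update Y l (X l)`).  If `Y = acc` then
   `X l = x s''` (otherwise `X = acc'`) and `m.P X = f s'' = a`.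
   `(insert l T).card = k + 1`, `Nr S c.δ (c.F k) ⊆ Nr S c.δ (c.F (k + 1))` (`Nr_mono`, `c.mono`).
-/

set_option autoImplicit false

open Set Filter Topology

namespace Pool.Agent.Helper83.TM

variable {E : Type*} [NormedAddCommGroup E] [NormedSpace ℝ E] {S : Space E}
  {ι : Type} [Fintype ι] [DecidableEq ι]

/-- the piece of the agent `l` is at most the cake -/
private lemma le_lam (m : MechN S ι) (x : ι → E) (l : ι) {τ : E} (hτ : τ ∈ S.Ty) :
    m.P x l τ ≤ S.lam τ := by
  have h1 : ∑ i, m.P x i τ = S.lam τ := by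
    rw [← m.sum x]
    simp
  rw [← h1]
  exact Finset.single_le_sum (f := fun i => m.P x i τ) (fun i _ => m.nn x i τ hτ)
    (Finset.mem_univ l)

/-- if `j` gets everything then the other agent `l` gets nothing -/
private lemma eq_zero_of_full (m : MechN S ι) (x : ι → E) {l j : ι} (hlj : l ≠ j) {τ : E}
    (hτ : τ ∈ S.Ty) (hj : m.P x j τ = S.lam τ) : m.P x l τ = 0 := by
  have h1 : ∑ i, m.P x i τ = S.lam τ := by
    rw [← m.sum x]
    simp
  have h2 : m.P x l τ + m.P x j τ ≤ ∑ i, m.P x i τ := by
    rw [← Finset.sum_pair (f := fun i => m.P x i τ) hlj]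
    exact Finset.sum_le_sum_of_subset_of_nonneg (Finset.subset_univ _)
      (fun i _ _ => m.nn x i τ hτ)
  have h3 := m.nn x l τ hτ
  linarith

theorem inv_step {m : MechN S ι} {N : ℕ} (c : ChainN m N) {d : E} (hd : d ∈ interior S.Ty)
    (hd' : d ∈ Nr S c.δ (c.F 0)) (hgen : ∀ φ ∈ c.D, φ ≠ 0 → φ d ≠ 0) {T : Finset ι}
    {acc ref : ι → E} {w a : ι → E →L[ℝ] ℝ} (h : Inv c d T acc ref w a) (hT : T.card < N) :
    ∃ l, l ∉ T ∧ ∃ (acc' ref' : ι → E) (w' : ι → E →L[ℝ] ℝ),
      Inv c d (insert l T) acc' ref' w' a := by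
  have hδ := c.δ_pos
  have hdty : d ∈ S.Ty := interior_subset hd
  have hkN : Nr S c.δ (c.F T.card) ⊆ Nr S c.δ (c.F N) := Nr_mono (c.mono hT.le)
  have hk1 : Nr S c.δ (c.F T.card) ⊆ Nr S c.δ (c.F (T.card + 1)) :=
    Nr_mono (c.mono (Nat.le_succ _))
  have h1N : Nr S c.δ (c.F (T.card + 1)) ⊆ Nr S c.δ (c.F N) := Nr_mono (c.mono hT)
  have hd1 : d ∈ Nr S c.δ (c.F (T.card + 1)) := Nr_mono (c.mono (Nat.zero_le _)) hd'
  have haccty : ∀ i, acc i ∈ S.Ty := fun i => Nr_ty (h.accN i)
  have hrefty : ∀ i, ref i ∈ S.Ty := fun i => Nr_ty (h.refN i)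
  -- the profiles in which one agent of `T` refuses
  have hX1 : ∀ i ∈ T, (∀ k, Function.update acc i (ref i) k = acc k ∨
      Function.update acc i (ref i) k = ref k) ∧ Function.update acc i (ref i) ≠ acc := by
    intro i hi
    refine ⟨fun k => ?_, fun hne => ?_⟩
    · by_cases hk : k = i
      · subst hk; right; rw [Function.update_self]
      · left; rw [Function.update_of_ne hk]
    · have := congrFun hne i
      rw [Function.update_self] at this
      exact h.acc_ne i hi this.symm
  obtain ⟨i0, hi0⟩ := h.ne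
  have hXN : ∀ X : ι → E, (∀ i, X i = acc i ∨ X i = ref i) →
      ∀ i, X i ∈ Nr S c.δ (c.F T.card) := by
    intro X hX i
    rcases hX i with h1 | h1
    · rw [h1]; exact h.accN i
    · rw [h1]; exact h.refN i
  have hX0 := h.low _ (hX1 i0 hi0).1 (hX1 i0 hi0).2
  have hX0N := hXN _ (hX1 i0 hi0).1
  -- step 1
  have hsum : 0 < ∑ j ∈ T, (m.P acc j d - m.P (Function.update acc i0 (ref i0)) j d) := by
    rw [hX0]
    refine Finset.sum_pos (fun j hj => ?_) h.ne
    have h1 : m.P acc j d - a j d = w j d := by rw [← h.high j hj]; rfl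
    rw [h1]
    exact h.wd j hj
  obtain ⟨j, hj, l, hl, τ0, hτ0, hτ1, hτ2⟩ := m.tgt _ _ T d hdty hsum
  obtain ⟨τ, hτF, hτa, hτj⟩ := c.t T.card hT _ _ hX0N h.accN l j ⟨τ0, hτ0, hτ1, hτ2⟩
  rw [hX0] at hτa
  have hτty : τ ∈ S.Ty := c.ty _ hτF
  have hlj : l ≠ j := fun h1 => hl (h1 ▸ hj)
  have haccl : acc l = d := (h.off l hl).1
  have hrefl : ref l = d := (h.off l hl).2
  -- step 2
  obtain ⟨ρ, hρ, hpos⟩ := pos_nearN c (c.mono hT hτF) l
  set P : Set E := Metric.ball τ ρ ∩ (Metric.ball τ c.δ ∩ ⋂ u ∈ c.D, {x | u τ < 0 → u x < 0})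
    with hP
  have hPo : IsOpen P := by
    refine Metric.isOpen_ball.inter (Metric.isOpen_ball.inter ?_)
    refine c.D_fin.isOpen_biInter fun u _ => ?_
    by_cases hu : u τ < 0
    · simp only [hu, true_imp_iff]
      exact isOpen_lt u.continuous continuous_const
    · simp [hu]
  have hτP : τ ∈ P := by
    refine ⟨Metric.mem_ball_self hρ, Metric.mem_ball_self hδ, ?_⟩
    simp
  set Q : Set E := ⋂ u ∈ c.D, {x | 0 ≤ u τ ∧ 0 < u d → 0 < u x} with hQ
  have hQo : IsOpen Q := by
    refine c.D_fin.isOpen_biInter fun u _ => ?_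
    by_cases hu : 0 ≤ u τ ∧ 0 < u d
    · simp only [hu, and_self, true_imp_iff]
      exact isOpen_lt continuous_const u.continuous
    · simp [hu]
  have hOne : (interior S.Ty ∩ (P ∩ Q)).Nonempty := by
    have hc := continuous_seg τ d
    have h1 : ∀ᶠ θ in 𝓝[>] (0 : ℝ), seg τ d θ ∈ P := by
      refine nhdsWithin_le_nhds (hc.continuousAt.eventually (hPo.mem_nhds ?_))
      rw [seg_zero]
      exact hτP
    have h2 : ∀ᶠ θ in 𝓝[>] (0 : ℝ), θ ∈ Ioc (0 : ℝ) 1 := Ioc_mem_nhdsGT (by norm_num)
    obtain ⟨θ, h3, h4⟩ := (h1.and h2).exists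
    refine ⟨seg τ d θ, ?_, h3, ?_⟩
    · exact S.conv.combo_self_interior_mem_interior hτty hd (by linarith [h4.2]) h4.1 (by ring)
    · rw [hQ, mem_iInter₂]
      rintro u hu ⟨h5, h6⟩
      rw [seg_apply]
      have h7 : 0 ≤ (1 - θ) * u τ := mul_nonneg (by linarith [h4.2]) h5
      have h8 : 0 < θ * u d := mul_pos h4.1 h6
      linarith
  have hSd : Simple c.D d := fun u hu _ _ h0 _ h1 _ => absurd h1 (hgen u hu h0)
  obtain ⟨z, hzO, hs⟩ := exists_seg (S := S) c.D_fin c.D_tri hSd
    (isOpen_interior.inter (hPo.inter hQo)) hOne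
  obtain ⟨hzi, ⟨hzρ, hzδ, hzw⟩, hzq⟩ := hzO
  have hzty : z ∈ S.Ty := interior_subset hzi
  have hz1 : z ∈ Nr S c.δ (c.F (T.card + 1)) := mem_Nr_of_dist hτF hzty hzδ
  have hzw' : ∀ u ∈ c.D, u τ < 0 → u z < 0 := fun u hu => (mem_iInter₂.1 hzw) u hu
  have hzq' : ∀ u ∈ c.D, 0 ≤ u τ → 0 < u d → 0 < u z :=
    fun u hu h1 h2 => (mem_iInter₂.1 hzq) u hu ⟨h1, h2⟩
  have hx1 : ∀ t ∈ Icc (0 : ℝ) 1, seg d z t ∈ Nr S c.δ (c.F (T.card + 1)) :=
    fun t ht => seg_mem (convex_Nr _ _) hd1 hz1 ht
  have hupN : ∀ X : ι → E, (∀ i, X i = acc i ∨ X i = ref i) → ∀ t ∈ Icc (0 : ℝ) 1,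
      ∀ i, Function.update X l (seg d z t) i ∈ Nr S c.δ (c.F (T.card + 1)) := by
    intro X hX t ht i
    by_cases hi : i = l
    · subst hi; rw [Function.update_self]; exact hx1 t ht
    · rw [Function.update_of_ne hi]; exact hk1 (hXN X hX i)
  -- step 3
  have href : ∀ X : ι → E, (∀ i, X i = acc i ∨ X i = ref i) → X ≠ acc → ∀ t ∈ Icc (0 : ℝ) 1,
      m.P (Function.update X l (seg d z t)) = a := by
    intro X hX hXa t ht
    have hPX := h.low X hX hXa
    have hXl : X l = d := by
      rcases hX l with h1 | h1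
      · rw [h1, haccl]
      · rw [h1, hrefl]
    have huD : m.P X l - m.P (Function.update X l (seg d z t)) l ∈ c.D :=
      c.d _ _ (fun i => hkN (hXN X hX i)) (fun i => h1N (hupN X hX t ht i)) l
    have hu1 : 0 ≤ (m.P X l - m.P (Function.update X l (seg d z t)) l) d := by
      have h1 := m.ic X l (seg d z t) (by rw [hXl]; exact hdty)
      rw [hXl] at h1
      rw [sub_apply]
      linarith
    have hu2 : (m.P X l - m.P (Function.update X l (seg d z t)) l) (seg d z t) ≤ 0 := by
      have h1 := m.ic (Function.update X l (seg d z t)) l d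
        (by rw [Function.update_self]; exact Nr_ty (hx1 t ht))
      rw [Function.update_idem, Function.update_self, ← hXl, Function.update_eq_self, hXl] at h1
      rw [sub_apply]
      linarith
    have hu3 : 0 ≤ (m.P X l - m.P (Function.update X l (seg d z t)) l) τ := by
      have h1 := le_lam m (Function.update X l (seg d z t)) l hτty
      rw [sub_apply, hPX, hτa]
      linarith
    have hu0 : m.P X l - m.P (Function.update X l (seg d z t)) l = 0 := by
      by_contra hne
      have h1 := hgen _ huD hne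
      have h2 : 0 < (m.P X l - m.P (Function.update X l (seg d z t)) l) d :=
        lt_of_le_of_ne hu1 (Ne.symm h1)
      have h3 := hzq' _ huD hu3 h2
      have h4 : 0 < (m.P X l - m.P (Function.update X l (seg d z t)) l) (seg d z t) := by
        rw [seg_apply]
        rcases eq_or_lt_of_le ht.1 with h5 | h5
        · subst h5
          rw [sub_zero, one_mul, zero_mul, add_zero]
          exact h2
        · have h6 := mul_pos h5 h3
          have h7 := mul_nonneg (show 0 ≤ 1 - t by linarith [ht.2]) h2.le
          linarith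
      linarith
    rw [← hPX]
    exact m.nb X l _ (sub_eq_zero.1 hu0).symm
  -- step 4
  have hacc : ∀ i, acc i = acc i ∨ acc i = ref i := fun i => Or.inl rfl
  have hf : ∀ t ∈ Icc (0 : ℝ) 1, m.P (Function.update acc l (seg d z t)) = a ∨
      ∀ i ∈ T, m.P (Function.update acc l (seg d z t)) i - a i = w i := by
    intro t ht
    by_contra hcon
    push Not at hcon
    obtain ⟨hfa, i, hi, hfi⟩ := hcon
    have hil : i ≠ l := fun h1 => hl (h1 ▸ hi)
    have ha : m.P (Function.update (Function.update acc l (seg d z t)) i (ref i)) = a := by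
      rw [Function.update_comm hil.symm]
      exact href _ (hX1 i hi).1 (hX1 i hi).2 t ht
    have hui : Function.update acc l (seg d z t) i = acc i := Function.update_of_ne hil _ _
    have huD : m.P (Function.update acc l (seg d z t)) i - a i ∈ c.D := by
      rw [← hX0]
      exact c.d _ _ (fun k => h1N (hupN acc hacc t ht k)) (fun k => hkN (hX0N k)) i
    have hu1 : 0 ≤ (m.P (Function.update acc l (seg d z t)) i - a i) (acc i) := by
      have h1 := m.ic (Function.update acc l (seg d z t)) i (ref i) (by rw [hui]; exact haccty i)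
      rw [ha, hui] at h1
      rw [sub_apply]
      linarith
    have hu2 : (m.P (Function.update acc l (seg d z t)) i - a i) (ref i) ≤ 0 := by
      have h1 := m.ic (Function.update (Function.update acc l (seg d z t)) i (ref i)) i (acc i)
        (by rw [Function.update_self]; exact hrefty i)
      rw [ha, Function.update_idem, Function.update_self, ← hui, Function.update_eq_self] at h1
      rw [sub_apply]
      linarith
    rcases h.adj i hi _ huD hu1 hu2 with h1 | h1
    · apply hfa
      rw [← ha]
      symm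
      apply m.nb
      rw [ha]
      exact (sub_eq_zero.1 h1).symm
    · exact hfi h1
  -- step 5
  have hf0 : m.P (Function.update acc l (seg d z 0)) ≠ a := by
    rw [seg_zero, ← haccl, Function.update_eq_self]
    intro h1
    have h2 := h.high i0 hi0
    rw [h1, sub_self] at h2
    have h3 := h.wd i0 hi0
    rw [← h2] at h3
    simp at h3
  have hf1 : m.P (Function.update acc l (seg d z 1)) = a := by
    by_contra hne
    have h1 := (hf 1 (by simp)).resolve_left hne j hj
    rw [← h.high j hj] at h1
    have h2 : m.P (Function.update acc l (seg d z 1)) j = m.P acc j := by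
      have := congrArg (fun φ => φ + a j) h1
      simpa using this
    have h3 := eq_zero_of_full m (Function.update acc l (seg d z 1)) hlj hτty (by rw [h2, hτj])
    have h4 := hpos (Function.update acc l (seg d z 1))
      (fun i => h1N (hupN acc hacc 1 (by simp) i))
      (by rw [Function.update_self, seg_one]; exact hzρ)
    linarith
  obtain ⟨s, hs01, hsN⟩ : ∃ s ∈ Icc (0 : ℝ) 1, ∀ N ∈ 𝓝 s, ∃ s' ∈ N, ∃ s'' ∈ N,
      s' ∈ Icc (0 : ℝ) 1 ∧ s'' ∈ Icc (0 : ℝ) 1 ∧
      m.P (Function.update acc l (seg d z s')) ≠ a ∧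
      m.P (Function.update acc l (seg d z s'')) = a := by
    by_contra hcon
    push Not at hcon
    have h1 := const_of_local (fun t => m.P (Function.update acc l (seg d z t)) = a) (by
      intro s hs
      obtain ⟨N, hN, hh⟩ := hcon s hs
      refine ⟨N, hN, fun s' h1 s'' h2 h3 h4 => ?_⟩
      apply propext
      constructor
      · intro h5
        by_contra h6
        exact hh s'' h2 s' h1 h4 h3 h6 h5
      · intro h5
        by_contra h6
        exact hh s' h1 s'' h2 h3 h4 h6 h5)
    exact hf0 (h1.symm ▸ hf1)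
  -- step 6
  obtain ⟨N1, hN1, hz0⟩ := zero_seg c.D_fin d z s
  obtain ⟨N2, hN2, hadj⟩ := adj_seg c.D_fin hgen hs s
  obtain ⟨s', h1, s'', h2, h3, h4, h5, h6⟩ := hsN (N1 ∩ N2) (inter_mem hN1 hN2)
  have hne : s' ≠ s'' := by
    rintro rfl
    exact h5 h6
  have hfs := (hf s' h3).resolve_left h5
  set w' : E →L[ℝ] ℝ := m.P (Function.update acc l (seg d z s')) l - a l with hw'
  have hwD : w' ∈ c.D := by
    rw [hw', ← hX0]
    exact c.d _ _ (fun k => h1N (hupN acc hacc s' h3 k)) (fun k => hkN (hX0N k)) l
  have hw1 : 0 ≤ w' (seg d z s') := by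
    have h7 := m.ic (Function.update acc l (seg d z s')) l (seg d z s'')
      (by rw [Function.update_self]; exact Nr_ty (hx1 s' h3))
    rw [Function.update_idem, Function.update_self, h6] at h7
    rw [hw', sub_apply]
    linarith
  have hw2 : w' (seg d z s'') ≤ 0 := by
    have h7 := m.ic (Function.update acc l (seg d z s'')) l (seg d z s')
      (by rw [Function.update_self]; exact Nr_ty (hx1 s'' h4))
    rw [Function.update_idem, Function.update_self, h6] at h7
    rw [hw', sub_apply]
    linarith
  have hws : w' (seg d z s) = 0 := hz0 s' h1.1 s'' h2.1 w' hwD hw1 hw2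
  have hw0 : w' ≠ 0 := by
    intro h7
    apply h5
    have h8 : m.P (Function.update acc l (seg d z s')) l = a l := sub_eq_zero.1 h7
    have h9 := m.nb (Function.update acc l (seg d z s'')) l (seg d z s')
      (by rw [Function.update_idem, h6, h8])
    rw [Function.update_idem, h6] at h9
    exact h9
  have hwτ : w' τ < 0 := by
    have h7 := hfs j hj
    rw [← h.high j hj] at h7
    have h8 : m.P (Function.update acc l (seg d z s')) j = m.P acc j := by
      have := congrArg (fun φ => φ + a j) h7
      simpa using this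
    have h9 := eq_zero_of_full m (Function.update acc l (seg d z s')) hlj hτty (by rw [h8, hτj])
    rw [hw', sub_apply, h9, hτa]
    linarith [S.lam_pos τ hτty]
  have hwz : w' z < 0 := hzw' w' hwD hwτ
  have hwd0 : w' d ≠ 0 := hgen w' hwD hw0
  have hwd : 0 < w' d := by
    rw [seg_apply] at hws
    by_contra h7
    have h8 : w' d < 0 := lt_of_le_of_ne (not_lt.1 h7) hwd0
    have h9 : (1 - s) * w' d ≤ 0 := mul_nonpos_of_nonneg_of_nonpos (by linarith [hs01.2]) h8.le
    have h10 : s * w' z ≤ 0 := mul_nonpos_of_nonneg_of_nonpos hs01.1 hwz.le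
    have h11 : (1 - s) * w' d = 0 := by linarith
    have h12 : s * w' z = 0 := by linarith
    have h13 : 1 - s = 0 := (mul_eq_zero.1 h11).resolve_right h8.ne
    have h14 : s = 0 := (mul_eq_zero.1 h12).resolve_right hwz.ne
    linarith
  obtain ⟨v, -, -, hv⟩ := hadj s' h1.2 s'' h2.2 hne
  have hvw : w' = v := (hv w' hwD hw1 hw2).resolve_left hw0
  -- step 7
  have hcard : (insert l T).card = T.card + 1 := Finset.card_insert_of_notMem hl
  refine ⟨l, hl, Function.update acc l (seg d z s'), Function.update ref l (seg d z s''),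
    Function.update w l w', ?_⟩
  refine ⟨Finset.insert_nonempty _ _, ?_, ?_, ?_, ?_, ?_, ?_, ?_, ?_⟩
  · intro i hi
    rw [Finset.mem_insert, not_or] at hi
    rw [Function.update_of_ne hi.1, Function.update_of_ne hi.1]
    exact h.off i hi.2
  · intro i
    rw [hcard]
    exact hupN acc hacc s' h3 i
  · intro i
    rw [hcard]
    exact hupN ref (fun i => Or.inr rfl) s'' h4 i
  · intro i hi
    rw [Finset.mem_insert] at hi
    by_cases hil : i = l
    · subst hil
      rw [Function.update_self, Function.update_self]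
      intro h7
      rw [h7] at h5
      exact h5 h6
    · rw [Function.update_of_ne hil, Function.update_of_ne hil]
      exact h.acc_ne i (hi.resolve_left hil)
  · intro i hi
    rw [Finset.mem_insert] at hi
    by_cases hil : i = l
    · subst hil
      rw [Function.update_self]
      exact hwd
    · rw [Function.update_of_ne hil]
      exact h.wd i (hi.resolve_left hil)
  · intro i hi
    rw [Finset.mem_insert] at hi
    by_cases hil : i = l
    · subst hil
      rw [Function.update_self, Function.update_self, Function.update_self, hvw]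
      exact hv
    · rw [Function.update_of_ne hil, Function.update_of_ne hil, Function.update_of_ne hil]
      exact h.adj i (hi.resolve_left hil)
  · intro X hX hXa
    have hY : ∀ i, Function.update X l d i = acc i ∨ Function.update X l d i = ref i := by
      intro i
      by_cases hil : i = l
      · subst hil
        left
        rw [Function.update_self, haccl]
      · have h7 := hX i
        rw [Function.update_of_ne hil, Function.update_of_ne hil] at h7
        rw [Function.update_of_ne hil]
        exact h7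
    have hXl := hX l
    rw [Function.update_self, Function.update_self] at hXl
    by_cases hYa : Function.update X l d = acc
    · have h7 : ∀ t, Function.update acc l t = Function.update X l t := by
        intro t
        rw [← hYa, Function.update_idem]
      have h8 : X l = seg d z s'' := by
        rcases hXl with h8 | h8
        · exfalso
          apply hXa
          rw [h7, ← h8, Function.update_eq_self]
        · exact h8
      rw [h7, ← h8, Function.update_eq_self] at h6
      exact h6
    · rcases hXl with h8 | h8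
      · have h9 := href _ hY hYa s' h3
        rw [Function.update_idem, ← h8, Function.update_eq_self] at h9
        exact h9
      · have h9 := href _ hY hYa s'' h4
        rw [Function.update_idem, ← h8, Function.update_eq_self] at h9
        exact h9
  · intro i hi
    rw [Finset.mem_insert] at hi
    by_cases hil : i = l
    · subst hil
      rw [Function.update_self]
    · rw [Function.update_of_ne hil]
      exact hfs i (hi.resolve_left hil)

end Pool.Agent.Helper83.TM
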