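import Pool.Agent.Helper83.TM.NB.First
import Pool.Agent.Helper83.TM.NB.Step
import Pool.Agent.Helper83.TM.NB.Ch

/-!
# The abstract theorem for non-bossy mechanisms
-/

set_option autoImplicit false

open Set Filter Topology

namespace Pool.Agent.Helper83.TM

variable {E : Type*} [NormedAddCommGroup E] [NormedSpace ℝ E] {S : Space E}
  {ι : Type} [Fintype ι] [DecidableEq ι]

theorem coreN (m : MechN S ι) (hc : 2 ≤ Fintype.card ι) : False := by
  obtain ⟨c⟩ := exists_chainN m (Fintype.card ι)
  obtain ⟨d, hd, hd', hgen, i0, acc0, ref0, w0, a0, h0⟩ := inv_first c (by omega) hc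
  have key : ∀ k, 1 ≤ k → k ≤ Fintype.card ι → ∃ (T : Finset ι) (acc ref : ι → E)
      (w a : ι → E →L[ℝ] ℝ), T.card = k ∧ Inv c d T acc ref w a := by
    intro k hk
    induction k, hk using Nat.le_induction with
    | base => exact fun _ => ⟨{i0}, acc0, ref0, w0, a0, Finset.card_singleton _, h0⟩
    | succ k hk ih =>
      intro hk2
      obtain ⟨T, acc, ref, w, a, hT, h⟩ := ih (by omega)
      obtain ⟨l, hl, acc', ref', w', h'⟩ := inv_step c hd hd' hgen h (by omega)
      exact ⟨insert l T, acc', ref', w', a, by rw [Finset.card_insert_of_notMem hl, hT], h'⟩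
  obtain ⟨T, acc, ref, w, a, hT, h⟩ := key _ (by omega) le_rfl
  have hTu : T = Finset.univ := Finset.card_eq_iff_eq_univ T |>.1 hT
  obtain ⟨i, hi⟩ := h.ne
  have hX : m.P (Function.update acc i (ref i)) = a := by
    apply h.low
    · intro k
      by_cases hk : k = i
      · subst hk; right; rw [Function.update_self]
      · left; rw [Function.update_of_ne hk]
    · intro hne
      have := congrFun hne i
      rw [Function.update_self] at this
      exact h.acc_ne i hi this.symm
  have h1 : ∑ k, (m.P acc k - a k) = 0 := by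
    rw [Finset.sum_sub_distrib, m.sum, ← hX, m.sum, sub_self]
  have h2 : ∑ k, w k = 0 := by
    rw [← h1]
    exact Finset.sum_congr rfl fun k _ => (h.high k (by rw [hTu]; exact Finset.mem_univ k)).symm
  have h3 : ∑ k, w k d = 0 := by
    have := congrArg (fun φ : E →L[ℝ] ℝ => φ d) h2
    simpa using this
  have h4 : 0 < ∑ k, w k d := Finset.sum_pos
    (fun k _ => h.wd k (by rw [hTu]; exact Finset.mem_univ k)) ⟨i, Finset.mem_univ i⟩
  linarith

end Pool.Agent.Helper83.TM
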