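import Pool.Agent.Helper83.TM.Sp
import Pool.Agent.Helper83.TM.NB.Defs

/-!
# TN-MechS: a truthful non-bossy mechanism as an abstract mechanism

As in `Pool/Agent/Helper83/TM/St/MechS.lean` (three agents, proved there; its auxiliary lemmas
may be imported and used): `toD`, `prof x i = toD (x i)`, `P x i = fn (indicator of M (prof x) i)`.
`prof (update x i f) = update (prof x) i (toD f)`.

* `nb`: `P (update x i f) i = P x i` means that the two pieces of agent `i` are a.e. equal
  (`fn_eq_iff`), so by `hB` all pieces are a.e. equal, so all functionals are equal (`funext`).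
* `full`: `τ` = indicator of the piece of agent `i`, a density since agent `i` has positive value.
* `tgt`: let `g = ∑ j ∈ T` of the indicators of the pieces `M (prof x') j` and `g'` the same for `x`;
  both are `{0,1}`-valued, `∫ (g - g') d > 0`, so `{g = 1, g' = 0}` is not null; it is the union of
  the finitely many sets `M (prof x') j ∩ M (prof x) l`, `j ∈ T`, `l ∉ T` (the pieces cover
  `[0,1]`), so one of these is not null and its indicator is the density `τ`.
-/

set_option autoImplicit false

open MeasureTheory Set Filter Topology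

namespace Pool.Agent.Helper83.TM

open Pool.Agent.Helper83.Cake

private lemma nms_one_mem : one ∈ TyS := interior_subset one_int_S

private noncomputable def nms_toD (x : stepSub) : Density :=
  open Classical in if h : x ∈ TyS then ⟨co x, h⟩ else ⟨co one, nms_one_mem⟩

private lemma nms_toD_val {x : stepSub} (h : x ∈ TyS) : (nms_toD x).1 = co x := by
  unfold nms_toD
  rw [dif_pos h]

private noncomputable def nms_prof {n : ℕ} (x : Fin n → stepSub) : Fin n → Density :=
  fun i => nms_toD (x i)

private lemma nms_upd {n : ℕ} (x : Fin n → stepSub) (i : Fin n) (f : stepSub) :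
    nms_prof (Function.update x i f) = Function.update (nms_prof x) i (nms_toD f) := by
  funext j
  by_cases h : j = i
  · subst h
    simp [nms_prof]
  · simp [nms_prof, h]

section

variable {n : ℕ} {M : (Fin n → Density) → Fin n → Set unitInterval}

private lemma nms_ind_step (hM : IsMechanism M) (d : Fin n → Density) (i : Fin n) :
    IsStep ((M d i).indicator (fun _ => (1 : ℝ))) := by
  choose S hSf hSo hSu using fun j => hM.piece d j
  refine ⟨⋃ j, S j, finite_iUnion hSf, ?_, ?_, ?_⟩
  · intro J hJ
    obtain ⟨j, hj⟩ := mem_iUnion.1 hJ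
    exact hSo j J hj
  · rw [eq_univ_iff_forall]
    intro u
    have hu : u ∈ ⋃ j, M d j := by rw [hM.cover d]; trivial
    obtain ⟨j, hj⟩ := mem_iUnion.1 hu
    rw [hSu j] at hj
    obtain ⟨J, hJ, huJ⟩ := hj
    exact ⟨J, mem_iUnion.2 ⟨j, hJ⟩, huJ⟩
  · intro J hJ
    obtain ⟨j, hj⟩ := mem_iUnion.1 hJ
    have hJM : J ⊆ M d j := by
      rw [hSu j]
      exact fun u hu => ⟨J, hj, hu⟩
    by_cases hij : j = i
    · subst hij
      exact ⟨1, fun u hu => indicator_of_mem (hJM hu) _⟩
    · refine ⟨0, fun u hu => indicator_of_notMem ?_ _⟩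
      exact disjoint_left.1 (hM.disj d j i hij) (hJM hu)

private noncomputable def nms_ind (hM : IsMechanism M) (d : Fin n → Density) (i : Fin n) :
    stepSub :=
  mkS ((M d i).indicator (fun _ => (1 : ℝ))) (nms_ind_step hM d i)

private lemma nms_co_ind (hM : IsMechanism M) (d : Fin n → Density) (i : Fin n) :
    co (nms_ind hM d i) = (M d i).indicator (fun _ => (1 : ℝ)) := rfl

private lemma nms_fn_ind (hM : IsMechanism M) (d : Fin n → Density) (i : Fin n) (x : stepSub) :
    fn (nms_ind hM d i) x = ∫ u in M d i, co x u := by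
  rw [fn_apply, ← integral_indicator (hM.piece d i).measurableSet]
  congr 1
  funext u
  rw [nms_co_ind]
  by_cases hu : u ∈ M d i
  · rw [indicator_of_mem hu, indicator_of_mem hu, one_mul]
  · rw [indicator_of_notMem hu, indicator_of_notMem hu, zero_mul]

private lemma nms_value (hM : IsMechanism M) (d : Fin n → Density) (i : Fin n) {x : stepSub}
    (hx : x ∈ TyS) : fn (nms_ind hM d i) x = value (nms_toD x) (M d i) := by
  rw [nms_fn_ind]
  unfold value
  rw [nms_toD_val hx]

/-- the values of the indicators at a point of the piece of agent `j` -/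
private lemma nms_at (hM : IsMechanism M) (d : Fin n → Density) {u : unitInterval} {j : Fin n}
    (hj : u ∈ M d j) (i : Fin n) : co (nms_ind hM d i) u = if i = j then 1 else 0 := by
  rw [nms_co_ind]
  by_cases h : i = j
  · subst h
    rw [if_pos rfl, indicator_of_mem hj]
  · rw [if_neg h, indicator_of_notMem]
    exact disjoint_left.1 (hM.disj d j i (fun e => h e.symm)) hj

private lemma nms_ex (hM : IsMechanism M) (d : Fin n → Density) (u : unitInterval) :
    ∃ j, u ∈ M d j := by
  have hu : u ∈ ⋃ j, M d j := by rw [hM.cover d]; trivial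
  exact mem_iUnion.1 hu

private lemma nms_sum (hM : IsMechanism M) (d : Fin n → Density) :
    ∑ i, fn (nms_ind hM d i) = fn one := by
  ext x
  rw [sum_apply]
  simp only [fn_apply]
  rw [← integral_finsetSum _ (fun i _ => integrable_mul _ _)]
  congr 1
  funext u
  obtain ⟨j, hj⟩ := nms_ex hM d u
  have h1 : co one u = 1 := rfl
  rw [h1, ← Finset.sum_mul]
  congr 1
  simp only [nms_at hM d hj]
  simp

private lemma nms_fn_sub (a b : stepSub) : fn a - fn b = fn (a - b) := by
  rw [sub_eq_add_neg, sub_eq_add_neg, spa_add, spa_neg]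

private lemma nms_tri (hM : IsMechanism M) (d d' : Fin n → Density) (i : Fin n) :
    fn (nms_ind hM d i) - fn (nms_ind hM d' i) ∈ TriS := by
  refine ⟨nms_ind hM d i - nms_ind hM d' i, fun u => ?_, nms_fn_sub _ _⟩
  rw [co_sub, nms_co_ind, nms_co_ind]
  by_cases h1 : u ∈ M d i <;> by_cases h2 : u ∈ M d' i
  · left; rw [indicator_of_mem h1, indicator_of_mem h2]; norm_num
  · right; left; rw [indicator_of_mem h1, indicator_of_notMem h2]; norm_num
  · right; right; rw [indicator_of_notMem h1, indicator_of_mem h2]; norm_num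
  · left; rw [indicator_of_notMem h1, indicator_of_notMem h2]; norm_num

private lemma nms_nonneg (hM : IsMechanism M) (d : Fin n → Density) (i : Fin n) {t : stepSub}
    (ht : t ∈ TyS) : 0 ≤ fn (nms_ind hM d i) t := by
  rw [nms_fn_ind]
  exact integral_nonneg fun u => (mem_TyS.1 ht).1 u

private lemma nms_ind_abs (hM : IsMechanism M) (d : Fin n → Density) (i : Fin n)
    (u : unitInterval) : |co (nms_ind hM d i) u| ≤ 1 := by
  rw [nms_co_ind]
  by_cases h1 : u ∈ M d i
  · rw [indicator_of_mem h1]; norm_num
  · rw [indicator_of_notMem h1]; norm_num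

private lemma nms_bound (hM : IsMechanism M) (d : Fin n → Density) (i : Fin n) (t : stepSub) :
    |fn (nms_ind hM d i) t| ≤ ‖t‖ := by
  rw [fn_apply]
  have h := norm_integral_le_of_norm_le_const (μ := (volume : Measure unitInterval))
    (f := fun u => co (nms_ind hM d i) u * co t u) (C := ‖t‖) (ae_of_all _ fun u => by
      rw [Real.norm_eq_abs, abs_mul]
      have h1 := nms_ind_abs hM d i u
      have h2 := abs_co_le t u
      calc |co (nms_ind hM d i) u| * |co t u| ≤ 1 * ‖t‖ :=
            mul_le_mul h1 h2 (abs_nonneg _) zero_le_one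
        _ = ‖t‖ := one_mul _)
  simpa using h

private lemma nms_ind_mem (hM : IsMechanism M) (d : Fin n → Density) (i : Fin n) {x : stepSub}
    (hpos : 0 < fn (nms_ind hM d i) x) : nms_ind hM d i ∈ TyS := by
  rw [mem_TyS]
  have h0 : ∀ u, 0 ≤ co (nms_ind hM d i) u := by
    intro u
    rw [nms_co_ind]
    exact indicator_nonneg (fun _ _ => zero_le_one) u
  refine ⟨h0, ?_⟩
  have hint : Integrable (co (nms_ind hM d i)) := spa_int _
  have h1 : fn (nms_ind hM d i) x ≤ ‖x‖ * ∫ u, co (nms_ind hM d i) u := by
    rw [fn_apply, ← integral_const_mul]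
    apply integral_mono (integrable_mul _ _) (hint.const_mul _)
    intro u
    show co (nms_ind hM d i) u * co x u ≤ ‖x‖ * co (nms_ind hM d i) u
    have h2 : co x u ≤ ‖x‖ := (le_abs_self _).trans (abs_co_le x u)
    rw [mul_comm]
    exact mul_le_mul_of_nonneg_right h2 (h0 u)
  have h3 : 0 < ‖x‖ * ∫ u, co (nms_ind hM d i) u := lt_of_lt_of_le hpos h1
  have h4 : 0 ≤ ∫ u, co (nms_ind hM d i) u := integral_nonneg h0
  rcases h4.eq_or_lt with h5 | h5
  · rw [← h5, mul_zero] at h3
    exact absurd h3 (lt_irrefl _)
  · exact h5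

/-- an indicator contained in the piece of agent `i` -/
private lemma nms_full (hM : IsMechanism M) (d : Fin n → Density) (i : Fin n) (τ : stepSub)
    (h : ∀ u, u ∉ M d i → co τ u = 0) : fn (nms_ind hM d i) τ = fn one τ := by
  rw [fn_apply, fn_apply]
  congr 1
  funext u
  have h1 : co one u = 1 := rfl
  rw [h1, nms_co_ind]
  by_cases hu : u ∈ M d i
  · rw [indicator_of_mem hu]
  · rw [h u hu, mul_zero, mul_zero]

private lemma nms_congr (hM : IsMechanism M) {d d' : Fin n → Density} {i : Fin n}
    (h : M d i =ᵐ[volume] M d' i) : fn (nms_ind hM d i) = fn (nms_ind hM d' i) := by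
  ext x
  rw [nms_fn_ind, nms_fn_ind]
  exact setIntegral_congr_set h

private lemma nms_congr' (hM : IsMechanism M) {d d' : Fin n → Density} {i : Fin n}
    (h : fn (nms_ind hM d i) = fn (nms_ind hM d' i)) : M d i =ᵐ[volume] M d' i := by
  rw [fn_eq_iff] at h
  filter_upwards [h] with u hu
  rw [nms_co_ind, nms_co_ind] at hu
  apply propext
  show u ∈ M d i ↔ u ∈ M d' i
  by_cases h1 : u ∈ M d i <;> by_cases h2 : u ∈ M d' i
  · exact ⟨fun _ => h2, fun _ => h1⟩
  · rw [indicator_of_mem h1, indicator_of_notMem h2] at hu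
    exact absurd hu one_ne_zero
  · rw [indicator_of_notMem h1, indicator_of_mem h2] at hu
    exact absurd hu.symm one_ne_zero
  · exact ⟨fun h => absurd h h1, fun h => absurd h h2⟩

/-- the indicator of the intersection of two pieces -/
private noncomputable def nms_cap (hM : IsMechanism M) (d d' : Fin n → Density) (j l : Fin n) :
    stepSub :=
  mkS (fun u => co (nms_ind hM d' j) u * co (nms_ind hM d l) u)
    ((isStep_co (nms_ind hM d' j)).map₂ (isStep_co (nms_ind hM d l)) (fun a b => a * b))

private lemma nms_co_cap (hM : IsMechanism M) (d d' : Fin n → Density) (j l : Fin n)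
    (u : unitInterval) : co (nms_cap hM d d' j l) u =
      co (nms_ind hM d' j) u * co (nms_ind hM d l) u := rfl

private lemma nms_tgt (hM : IsMechanism M) (d d' : Fin n → Density) (T : Finset (Fin n))
    (t : stepSub) (ht : t ∈ TyS)
    (hpos : 0 < ∑ j ∈ T, (fn (nms_ind hM d' j) t - fn (nms_ind hM d j) t)) :
    ∃ j ∈ T, ∃ l, l ∉ T ∧ ∃ τ ∈ TyS, fn (nms_ind hM d l) τ = fn one τ ∧
      fn (nms_ind hM d' j) τ = fn one τ := by
  by_contra hcon
  push Not at hcon
  have h0 : ∀ (v : stepSub), (∀ u, 0 ≤ co v u) → v ∉ TyS → co v =ᵐ[volume] fun _ => (0 : ℝ) := by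
    intro v hv hn
    rw [mem_TyS] at hn
    have h1 : ∫ u, co v u = 0 := by
      apply le_antisymm _ (integral_nonneg hv)
      by_contra h2
      exact hn ⟨hv, not_le.1 h2⟩
    exact (integral_eq_zero_iff_of_nonneg hv (spa_int v)).1 h1
  have hnull : ∀ j ∈ T, ∀ l, l ∉ T → co (nms_cap hM d d' j l) =ᵐ[volume] fun _ => (0 : ℝ) := by
    intro j hj l hl
    apply h0
    · intro u
      rw [nms_co_cap]
      refine mul_nonneg ?_ ?_
      · rw [nms_co_ind]; exact indicator_nonneg (fun _ _ => zero_le_one) u
      · rw [nms_co_ind]; exact indicator_nonneg (fun _ _ => zero_le_one) u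
    · intro hty
      refine hcon j hj l hl _ hty ?_ ?_
      · apply nms_full
        intro u hu
        rw [nms_co_cap, nms_co_ind hM d l, indicator_of_notMem hu, mul_zero]
      · apply nms_full
        intro u hu
        rw [nms_co_cap, nms_co_ind hM d' j, indicator_of_notMem hu, zero_mul]
  have hall : ∀ᵐ u ∂(volume : Measure unitInterval), ∀ j ∈ T, ∀ l, l ∉ T →
      co (nms_cap hM d d' j l) u = 0 := by
    rw [ae_all_iff]
    intro j
    by_cases hj : j ∈ T
    · have : ∀ᵐ u ∂(volume : Measure unitInterval), ∀ l, l ∉ T →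
          co (nms_cap hM d d' j l) u = 0 := by
        rw [ae_all_iff]
        intro l
        by_cases hl : l ∈ T
        · exact ae_of_all _ fun u h => absurd hl h
        · filter_upwards [hnull j hj l hl] with u hu _
          exact hu
      filter_upwards [this] with u hu _
      exact hu
    · exact ae_of_all _ fun u h => absurd h hj
  have hle : ∑ j ∈ T, (fn (nms_ind hM d' j) t - fn (nms_ind hM d j) t) ≤ 0 := by
    have h1 : ∀ j, fn (nms_ind hM d' j) t - fn (nms_ind hM d j) t =
        ∫ u, (co (nms_ind hM d' j) u - co (nms_ind hM d j) u) * co t u := by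
      intro j
      rw [fn_apply, fn_apply, ← integral_sub (integrable_mul _ _) (integrable_mul _ _)]
      congr 1
      funext u
      ring
    have hint : ∀ j, Integrable
        (fun u => (co (nms_ind hM d' j) u - co (nms_ind hM d j) u) * co t u) := by
      intro j
      have := (integrable_mul (nms_ind hM d' j) t).sub (integrable_mul (nms_ind hM d j) t)
      refine this.congr (ae_of_all _ fun u => ?_)
      show co (nms_ind hM d' j) u * co t u - co (nms_ind hM d j) u * co t u = _
      ring
    simp only [h1]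
    rw [← integral_finsetSum _ (fun j _ => hint j)]
    apply integral_nonpos_of_ae
    filter_upwards [hall] with u hu
    show ∑ j ∈ T, (co (nms_ind hM d' j) u - co (nms_ind hM d j) u) * co t u ≤ 0
    rw [← Finset.sum_mul, Finset.sum_sub_distrib]
    apply mul_nonpos_of_nonpos_of_nonneg _ ((mem_TyS.1 ht).1 u)
    obtain ⟨a, ha⟩ := nms_ex hM d u
    obtain ⟨b, hb⟩ := nms_ex hM d' u
    simp only [nms_at hM d ha, nms_at hM d' hb]
    rw [Finset.sum_ite_eq' T b, Finset.sum_ite_eq' T a]
    by_cases hbT : b ∈ T
    · by_cases haT : a ∈ T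
      · rw [if_pos hbT, if_pos haT]; norm_num
      · exfalso
        have := hu b hbT a haT
        rw [nms_co_cap, nms_at hM d' hb, nms_at hM d ha, if_pos rfl, if_pos rfl] at this
        norm_num at this
    · rw [if_neg hbT]
      split_ifs <;> norm_num
  exact absurd hpos (not_lt.2 hle)

private lemma nms_lf (hM : IsMechanism M) (hF : LocallyFiniteMech M) (x : Fin n → stepSub)
    (hx : ∀ i, x i ∈ TyS) : ∃ ε > 0,
    {q : Fin n → stepSub →L[ℝ] ℝ | ∃ x' : Fin n → stepSub,
      (∀ i, x' i ∈ TyS ∧ dist (x' i) (x i) < ε) ∧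
      q = fun i => fn (nms_ind hM (nms_prof x') i)}.Finite := by
  obtain ⟨ε, hε, 𝒜, hfin, hA⟩ := hF (nms_prof x)
  refine ⟨ε, hε, ?_⟩
  classical
  let g : (Fin n → Set unitInterval) → Fin n → stepSub →L[ℝ] ℝ := fun A =>
    if h : ∃ d' : Fin n → Density, ∀ i, M d' i =ᵐ[volume] A i then
      fun i => fn (nms_ind hM h.choose i)
    else 0
  refine (hfin.image g).subset ?_
  rintro q ⟨x', hx', rfl⟩
  obtain ⟨A, hA1, hA2⟩ := hA (nms_prof x') (by
    intro i u
    show |(nms_toD (x' i)).1 u - (nms_toD (x i)).1 u| < ε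
    rw [nms_toD_val (hx i), nms_toD_val (hx' i).1, ← co_sub]
    refine lt_of_le_of_lt (abs_co_le _ u) ?_
    have := (hx' i).2
    rwa [dist_eq_norm] at this)
  refine ⟨A, hA1, ?_⟩
  have hex : ∃ d' : Fin n → Density, ∀ i, M d' i =ᵐ[volume] A i := ⟨_, hA2⟩
  have h4 := hex.choose_spec
  have h5 : ∀ i, fn (nms_ind hM hex.choose i) = fn (nms_ind hM (nms_prof x') i) :=
    fun i => nms_congr hM ((h4 i).trans (hA2 i).symm)
  show g A = _
  simp only [g]
  rw [dif_pos hex]
  funext i
  exact h5 i

end

theorem exists_mechN {n : ℕ} (M : (Fin n → Density) → Fin n → Set unitInterval)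
    (hM : IsMechanism M) (hT : Truthful M) (hF : LocallyFiniteMech M) (hB : NonBossy M)
    (hp : ∀ d i, 0 < value (d i) (M d i)) : Nonempty (MechN sp (Fin n)) := by
  have hpos : ∀ (x : Fin n → stepSub) (i : Fin n), x i ∈ TyS →
      0 < fn (nms_ind hM (nms_prof x) i) (x i) := by
    intro x i hx
    rw [nms_value hM _ _ hx]
    exact hp (nms_prof x) i
  refine ⟨{
    P := fun x i => fn (nms_ind hM (nms_prof x) i)
    sum := fun x => nms_sum hM _
    nn := fun x i t ht => nms_nonneg hM _ _ ht
    tri := fun x x' i => nms_tri hM _ _ _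
    ic := ?_
    pos := hpos
    bd := fun x i t => nms_bound hM _ _ t
    nb := ?_
    full := ?_
    tgt := fun x x' T d hd h => nms_tgt hM _ _ T d hd h
    lf := nms_lf hM hF }⟩
  · intro x i f hx
    show fn (nms_ind hM (nms_prof (Function.update x i f)) i) (x i) ≤
      fn (nms_ind hM (nms_prof x) i) (x i)
    rw [nms_value hM _ _ hx, nms_value hM _ _ hx]
    have h := hT (nms_prof x) i (nms_toD f)
    rw [← nms_upd] at h
    exact h
  · intro x i f h
    have h1 := nms_congr' hM h
    rw [nms_upd] at h1
    have h2 := hB (nms_prof x) i (nms_toD f) h1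
    funext j
    show fn (nms_ind hM (nms_prof (Function.update x i f)) j) = fn (nms_ind hM (nms_prof x) j)
    rw [nms_upd]
    exact nms_congr hM (h2 j)
  · intro x i hx
    refine ⟨nms_ind hM (nms_prof x) i, nms_ind_mem hM _ _ (hpos x i hx), ?_⟩
    apply nms_full
    intro u hu
    rw [nms_co_ind, indicator_of_notMem hu]

end Pool.Agent.Helper83.TM
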