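import Pool.Agent.Helper83.TM.NB.Defs

/-!
# TN-Near: positivity near a type of `F N` (`n` agents)

The same proof as `pos_nearC` in `Pool/Agent/Helper83/TM/St/Near.lean`.  The set of the
`m.P (update x l τ) l`, `x` with entries in `Nr ..`, is finite (differences are in `c.D`), all its
members are positive at `τ` (`m.pos`), so they are `≥ η > 0` at `τ`; `ρ = η / 3`.  If
`dist (x l) τ < ρ` then `m.P x l (x l) ≥ m.P (update x l τ) l (x l)` (`m.ic`) and `m.bd`.
-/

set_option autoImplicit false

open Set Filter Topology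

namespace Pool.Agent.Helper83.TM

variable {E : Type*} [NormedAddCommGroup E] [NormedSpace ℝ E] {S : Space E}
  {ι : Type} [Fintype ι] [DecidableEq ι]

lemma near_lbN {α : Type*} {s : Set α} (hs : s.Finite) (f : α → ℝ) :
    ∃ η > 0, ∀ a ∈ s, 0 < f a → η ≤ f a := by
  induction s, hs using Set.Finite.induction_on with
  | empty => exact ⟨1, one_pos, fun a ha => absurd ha (Set.notMem_empty a)⟩
  | @insert a s _ _ ih =>
    obtain ⟨η, h0, h⟩ := ih
    by_cases ha : 0 < f a
    · refine ⟨min η (f a), lt_min h0 ha, fun b hb hb' => ?_⟩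
      rcases hb with rfl | hb
      · exact min_le_right _ _
      · exact (min_le_left _ _).trans (h b hb hb')
    · refine ⟨η, h0, fun b hb hb' => ?_⟩
      rcases hb with rfl | hb
      · exact absurd hb' ha
      · exact h b hb hb'

theorem pos_nearN {m : MechN S ι} {N : ℕ} (c : ChainN m N) {τ : E} (hτ : τ ∈ c.F N) (l : ι) :
    ∃ ρ > 0, ∀ x : ι → E, (∀ i, x i ∈ Nr S c.δ (c.F N)) → dist (x l) τ < ρ →
      0 < m.P x l τ := by
  have hty : τ ∈ S.Ty := c.ty N hτ
  have hN : τ ∈ Nr S c.δ (c.F N) := mem_Nr c.δ_pos hτ hty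
  obtain ⟨η, h0, h⟩ := near_lbN c.D_fin (fun d => (m.P (fun _ => τ) l + d) τ)
  refine ⟨η / 3, by positivity, fun x hx hd => ?_⟩
  have hx' : ∀ i, Function.update x l τ i ∈ Nr S c.δ (c.F N) := by
    intro i
    by_cases hi : i = l
    · rw [hi, Function.update_self]; exact hN
    · rw [Function.update_of_ne hi]; exact hx i
  have hl : Function.update x l τ l = τ := Function.update_self _ _ _
  have h1 : η ≤ m.P (Function.update x l τ) l τ := by
    have h2 := h _ (c.d (Function.update x l τ) (fun _ => τ) hx' (fun _ => hN) l)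
    have h3 : m.P (fun _ => τ) l + (m.P (Function.update x l τ) l - m.P (fun _ => τ) l) =
        m.P (Function.update x l τ) l := by abel
    simp only [h3] at h2
    refine h2 ?_
    have h4 := m.pos (Function.update x l τ) l (by rw [hl]; exact hty)
    rwa [hl] at h4
  have h4 := m.ic x l τ (hx l).1
  have h5 := m.bd x l (x l - τ)
  have h6 := m.bd (Function.update x l τ) l (x l - τ)
  rw [map_sub, ← dist_eq_norm, abs_le] at h5 h6
  linarith [h5.1, h5.2, h6.1, h6.2]

end Pool.Agent.Helper83.TM
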